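import Pool.Agent.Q198.Fman.Main

/-! # MP_cfa256_gt: invariant metrics exist exactly when `a₀` involves only the main variables -/

namespace Pool.Agent.Results.MP_cfa256_gt.MainVariables

open Q198.Fman Filter Topology

/-- Let `𝕜 = ℝ` or `ℂ`, let `m α ≥ 1` be the block sizes, `p` a regular point in David–Hertling
coordinates, `a` a linear function and `Γ` the Christoffel symbols, near `p`, of the torsion-free
connection with `∇ e = 0` and `d_∇ ((E - a e) ∘) = 0`. Then `(⋆)` has a smooth non-degenerate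
invariant solution near `p` if and only if `a` is a linear combination
`∑ m_α ε_α u^{1(α)}` of the main variables. -/
theorem result {𝕜 : Type*} [RCLike 𝕜] {r : ℕ} {m : Fin r → ℕ} (hm : ∀ α, 0 < m α)
    {p : Co 𝕜 m} (hp : Regular p) (a : Co 𝕜 m →ₗ[𝕜] 𝕜)
    (Γ : Co 𝕜 m → Co 𝕜 m → Co 𝕜 m → Co 𝕜 m) (hΓ : ∀ᶠ u in 𝓝 p, IsConn a Γ u) :
    (∃ V : Set (Co 𝕜 m), IsOpen V ∧ p ∈ V ∧
      ∃ g : Co 𝕜 m → Co 𝕜 m → Co 𝕜 m → 𝕜, IsInvariantMetric g V ∧ SolvesStar Γ g V) ↔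
      ∃ ε : Fin r → 𝕜, ∀ u : Co 𝕜 m, a u = ∑ α, m α * ε α * u α ⟨0, hm α⟩ := by
  constructor
  · rintro ⟨V, hV, hpV, g, hg, hst⟩
    exact necessity hm hp a hΓ.self_of_nhds hV hpV hg hst
  · rintro ⟨ε, hε⟩
    exact sufficiency hm hp a hΓ hε

end Pool.Agent.Results.MP_cfa256_gt.MainVariables
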